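import Pool.Agent.N641.VB.Stm3
import Pool.Agent.N966.VB.TM1
import Pool.Agent.N232.VB.TM2

set_option autoImplicit false

/-!
# Project VB, leaf TM4: formulas of the algebra are determined by types
-/

namespace Pool.Agent.N478.VB

open FirstOrder FirstOrder.Language
open Pool.Agent.N641.VB

theorem TM4 : S_TM4 := by
  intro M _ n χ
  have H : S_TM1 := Pool.Agent.N966.VB.TM1
  have hR : ∀ (l : ℕ) (R : (LM M).Relations l), Tame (M := M) (n := 0 + l) (fun A _ mu x =>
      @Structure.RelMap (LM M) A (str (· ≤ ·) mu) l R (fun j => x (Fin.natAdd 0 j))) := by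
    intro l R
    cases R with
    | le => exact (H M).1 (0 + 2) (Fin.natAdd 0 0) (Fin.natAdd 0 1)
    | val v => exact (H M).2.1 (0 + 1) (Fin.natAdd 0 0) v
  have hF : ∀ (l : ℕ) (F : (LM M).Functions l), Tame (M := M) (n := 0 + (l + 1)) (fun A _ mu x =>
      @Structure.funMap (LM M) A (str (· ≤ ·) mu) l F
        (fun j => x (Fin.natAdd 0 j.castSucc)) = x (Fin.natAdd 0 (Fin.last l))) :=
    fun l F => Empty.elim F
  have h1 := Pool.Agent.N232.VB.form_ti (M := M) H (L := LM M) (n := 0)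
    (fun A _ mu _ => str (· ≤ ·) mu) hR hF χ (K := Fin n) (fun i => i.elim0) id
    (fun i => i.elim0) n id
  obtain ⟨k, hk⟩ := h1
  refine ⟨k, ?_⟩
  intro A A' _ _ mu mu' p p' hmu hmu' hc
  have e : ∀ (B : Type) [BooleanAlgebra B] (nu : B → M) (x : Fin n → B),
      @BoundedFormula.Realize (LM M) B (str (· ≤ ·) nu) (Fin n) 0 χ (fun i => x (id (id i)))
        (fun i : Fin 0 => x (id (i.elim0))) ↔
      @Formula.Realize (LM M) B (str (· ≤ ·) nu) _ χ x := by
    intro B _ nu x
    have e2 : (fun i : Fin 0 => x (id (i.elim0))) = (default : Fin 0 → B) := Subsingleton.elim _ _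
    rw [e2]
    rfl
  rw [← e A mu p, ← e A' mu' p']
  exact ⟨hk A A' mu mu' p p' hmu hmu' hc, hk A' A mu' mu p' p hmu' hmu (fun ε => (hc ε).symm)⟩

end Pool.Agent.N478.VB
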